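import Mathlib

/-! Counting in a Steiner system `S(4,5,21)`. -/

namespace Pool.Agent.Lib.MP_672b2e_co

open Finset

variable {B : Finset (Finset (Fin 21))} {x y : Fin 21} {A W W' : Finset (Fin 21)}

/-- The number of pairs of a block through `P` and a `j`-subset of `W` in the block. -/
def T (B : Finset (Finset (Fin 21))) (P W : Finset (Fin 21)) (j : ℕ) : ℕ :=
  ∑ b ∈ B, if P ⊆ b then (b ∩ W).card.choose j else 0

theorem T_eq {P : Finset (Fin 21)} (j : ℕ) (hd : Disjoint P W) {l : ℕ}
    (h : ∀ Q : Finset (Fin 21), Q.card = P.card + j → T B Q ∅ 0 = l) :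
    T B P W j = W.card.choose j * l := by
  have h1 : ∀ b, (if P ⊆ b then (b ∩ W).card.choose j else 0) =
      ∑ S ∈ powersetCard j W, if P ∪ S ⊆ b then 1 else 0 := by
    intro b
    by_cases hb : P ⊆ b
    · rw [if_pos hb, ← card_powersetCard, ← card_filter]
      congr 1
      ext S
      simp only [mem_powersetCard, subset_inter_iff, union_subset_iff, hb, mem_filter]
      tauto
    · rw [if_neg hb]
      exact (sum_eq_zero fun S _ => if_neg fun h => hb (subset_union_left.trans h)).symm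
  unfold T
  simp only [h1]
  rw [sum_comm, ← card_powersetCard, ← smul_eq_mul, ← sum_const]
  refine sum_congr rfl fun S hS => ?_
  obtain ⟨h2, h3⟩ := mem_powersetCard.1 hS
  have h4 := h (P ∪ S) (by rw [card_union_of_disjoint (hd.mono_right h2), h3])
  simpa only [T, Nat.choose_zero_right] using h4

/-- `B` is a Steiner system `S(4,5,21)`. -/
structure St (B : Finset (Finset (Fin 21))) : Prop where
  five : ∀ b ∈ B, b.card = 5
  four : ∀ Q : Finset (Fin 21), Q.card = 4 → ∃! b, b ∈ B ∧ Q ⊆ b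

theorem St.step (H : St B) {k l : ℕ} (h : ∀ Q : Finset (Fin 21), Q.card = k + 1 → T B Q ∅ 0 = l)
    (P : Finset (Fin 21)) (hP : P.card = k) : (5 - k) * T B P ∅ 0 = (21 - k) * l := by
  have h1 := T_eq (B := B) (P := P) (W := Pᶜ) 1 disjoint_compl_right (hP ▸ h)
  rw [card_compl, hP, Nat.choose_one_right, Fintype.card_fin] at h1
  rw [← h1, T, T, mul_sum]
  refine sum_congr rfl fun b hb => ?_
  split_ifs with h2
  · rw [← sdiff_eq_inter_compl, card_sdiff_of_subset h2, H.five b hb, hP]
    simp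
  · rfl

theorem St.l4 (H : St B) (Q : Finset (Fin 21)) (hQ : Q.card = 4) : T B Q ∅ 0 = 1 := by
  obtain ⟨b, ⟨h1, h2⟩, h3⟩ := H.four Q hQ
  rw [T, sum_eq_single_of_mem b h1 fun c hc h => if_neg fun h4 => h (h3 c ⟨hc, h4⟩), if_pos h2]
  exact Nat.choose_zero_right _

theorem St.l3 (H : St B) (Q : Finset (Fin 21)) (hQ : Q.card = 3) : T B Q ∅ 0 = 9 := by
  have := H.step H.l4 Q hQ
  omega

theorem St.l2 (H : St B) (Q : Finset (Fin 21)) (hQ : Q.card = 2) : T B Q ∅ 0 = 57 := by
  have := H.step H.l3 Q hQ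
  omega

theorem St.l1 (H : St B) (Q : Finset (Fin 21)) (hQ : Q.card = 1) : T B Q ∅ 0 = 285 := by
  have := H.step H.l2 Q hQ
  omega

theorem St.l0 (H : St B) (Q : Finset (Fin 21)) (hQ : Q.card = 0) : T B Q ∅ 0 = 1197 := by
  have := H.step H.l1 Q hQ
  omega

theorem card_le {b P : Finset (Fin 21)} (h : P ⊆ b) (hd : Disjoint P W) :
    (b ∩ W).card + P.card ≤ b.card := by
  rw [← card_union_of_disjoint (hd.symm.mono_left inter_subset_right)]
  exact card_le_card (union_subset inter_subset_left h)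

/-- A set of ten points off `x` that meets every block through `x` in an even number of points. -/
structure Ev (B : Finset (Finset (Fin 21))) (x : Fin 21) (W : Finset (Fin 21)) : Prop where
  ten : W.card = 10
  off : x ∉ W
  ev : ∀ b ∈ B, x ∈ b → (b ∩ W).card % 2 = 0

theorem St.ev_of (H : St B) (h1 : A.card = 10) (h2 : x ∉ A)
    (h3 : ∀ b ∈ B, x ∈ b → 3 ≤ (b ∩ A).card → b ⊆ insert x A) : Ev B x A := by
  refine ⟨h1, h2, fun b hb hx => ?_⟩
  by_cases h4 : b ⊆ insert x A
  · have h5 : b ∩ A = b.erase x := by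
      ext z
      have := @h4 z
      simp only [mem_inter, mem_erase, mem_insert] at this ⊢
      exact ⟨fun h => ⟨fun e => h2 (e ▸ h.2), h.1⟩, fun h => ⟨h.2, (this h.2).resolve_left h.1⟩⟩
    rw [h5, card_erase_of_mem hx, H.five b hb]
  obtain ⟨y, y1, y2⟩ := not_subset.1 h4
  have y3 : x ≠ y := fun e => y2 (e ▸ mem_insert_self _ _)
  have hd : Disjoint {x, y} A := by
    simp only [mem_insert, not_or] at y2
    simp [h2, y2.2]
  have c2 := card_pair y3
  have a1 := T_eq (B := B) 1 hd fun Q hQ => H.l3 Q (by omega)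
  have a2 := T_eq (B := B) 2 hd fun Q hQ => H.l4 Q (by omega)
  have a3 : ∀ c ∈ B, {x, y} ⊆ c → (c ∩ A).card ≤ 2 := fun c hc h => by
    by_contra h5
    exact y2 (h3 c hc (h (by simp)) (by omega) (h (by simp)))
  have a4 : ∀ c ∈ B, 2 * (if {x, y} ⊆ c then (c ∩ A).card.choose 2 else 0) ≤
      if {x, y} ⊆ c then (c ∩ A).card.choose 1 else 0 := fun c hc => by
    split_ifs with h
    · have := a3 c hc h
      interval_cases (c ∩ A).card <;> decide
    · rfl
  have a5 := (sum_eq_sum_iff_of_le a4).1 (by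
    rw [← mul_sum]
    change 2 * T B {x, y} A 2 = T B {x, y} A 1
    rw [a1, a2, h1]
    decide) b hb
  have a6 : {x, y} ⊆ b := by simp [insert_subset_iff, hx, y1]
  have := a3 b hb a6
  rw [if_pos a6, if_pos a6] at a5
  revert a5
  interval_cases (b ∩ A).card <;> decide

theorem St.avoid (H : St B) (h : Ev B x A) (y : Fin 21) : ∃ W, Ev B x W ∧ y ∉ W := by
  by_cases h1 : y ∈ A
  · refine ⟨(insert x A)ᶜ, ⟨?_, by simp, fun b hb hx => ?_⟩, by simp [h1]⟩
    · rw [card_compl, card_insert_of_notMem h.off, h.ten, Fintype.card_fin]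
    · have h2 := card_sdiff_add_card_inter b (insert x A)
      rw [inter_insert_of_mem hx, card_insert_of_notMem (by simp [h.off]), H.five b hb] at h2
      have h3 := h.ev b hb hx
      rw [← sdiff_eq_inter_compl]
      omega
  · exact ⟨A, h, h1⟩

theorem St.same (H : St B) (h : Ev B x W) (h' : Ev B y W') (hy : y ∉ W) (hx : x ∉ W')
    (hn : x ≠ y) : W ⊆ W' := by
  intro p p1
  by_contra p2
  have c3 : ∀ z, z ≠ x → z ≠ y → ({x, y, z} : Finset (Fin 21)).card = 3 := fun z z1 z2 =>
    card_eq_three.2 ⟨x, y, z, hn, z1.symm, z2.symm, rfl⟩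
  have s1 : ∀ z, z ≠ x → z ≠ y → ∀ D : Finset (Fin 21), x ∉ D → y ∉ D → z ∉ D →
      ∑ b ∈ B, (if {x, y, z} ⊆ b then (b ∩ D).card else 0) = D.card := fun z z1 z2 D d1 d2 d3 => by
    have := T_eq (B := B) (P := {x, y, z}) (W := D) 1 (by simp [d1, d2, d3])
      fun Q hQ => H.l4 Q (by rw [hQ, c3 z z1 z2])
    simpa only [T, Nat.choose_one_right, mul_one] using this
  have u1 : ∀ b : Finset (Fin 21), (b ∩ (W ∪ W')).card + (b ∩ (W ∩ W')).card =
      (b ∩ W).card + (b ∩ W').card := fun b => by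
    rw [inter_union_distrib_left, inter_inter_distrib_left, card_union_add_card_inter]
  have px : p ≠ x := fun e => h.off (e ▸ p1)
  have py : p ≠ y := fun e => hy (e ▸ p1)
  have d5 : (W ∩ W').card = 5 := by
    have a1 := s1 p px py (W ∩ W') (by simp [hx]) (by simp [hy]) (by simp [p2])
    have a2 := s1 p px py W' hx h'.off p2
    have a3 : ∑ b ∈ B, (if {x, y, p} ⊆ b then (b ∩ W').card else 0) =
        ∑ b ∈ B, 2 * (if {x, y, p} ⊆ b then (b ∩ (W ∩ W')).card else 0) := by
      refine sum_congr rfl fun b hb => ?_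
      split_ifs with hs
      · have b1 := h.ev b hb (hs (by simp))
        have b2 := h'.ev b hb (hs (by simp))
        have b3 := u1 b
        have b4 := card_le (W := W ∪ W') (P := {x, y}) (b := b)
          (subset_trans (by simp) hs) (by simp [hx, hy, h.off, h'.off])
        have b5 := card_le (W := W') hs (by simp [hx, h'.off, p2])
        have b6 : (b ∩ (W ∩ W')).card < (b ∩ W).card := card_lt_card
          ⟨inter_subset_inter_left inter_subset_left, fun e => by
            simpa [p2] using e (mem_inter.2 ⟨hs (by simp), p1⟩)⟩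
        have b7 : (b ∩ (W ∩ W')).card ≤ (b ∩ W').card :=
          card_le_card (inter_subset_inter_left inter_subset_right)
        have b8 : (b ∩ W).card ≤ (b ∩ (W ∪ W')).card :=
          card_le_card (inter_subset_inter_left subset_union_left)
        rw [H.five b hb, card_pair hn] at b4
        rw [H.five b hb, c3 p px py] at b5
        omega
      · rfl
    rw [← mul_sum, a1, a2, h'.ten] at a3
    omega
  obtain ⟨r, r1⟩ : ∃ r, r ∉ insert x (insert y (W ∪ W')) := by
    by_contra h1
    have h2 := card_le_card (fun r _ => not_not.1 (not_exists.1 h1 r) : univ ⊆ _)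
    have h3 := card_insert_le x (insert y (W ∪ W'))
    have h4 := card_insert_le y (W ∪ W')
    have h5 := card_union_add_card_inter W W'
    rw [card_univ, Fintype.card_fin] at h2
    rw [h.ten, h'.ten] at h5
    omega
  simp only [mem_insert, mem_union, not_or] at r1
  obtain ⟨r1, r2, r3, r4⟩ := r1
  have a1 := s1 r r1 r2 (W ∩ W') (by simp [hx]) (by simp [hy]) (by simp [r3])
  have a2 : 2 ∣ ∑ b ∈ B, (if {x, y, r} ⊆ b then (b ∩ (W ∩ W')).card else 0) := by
    refine dvd_sum fun b hb => ?_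
    split_ifs with hs
    · have b1 := h.ev b hb (hs (by simp))
      have b2 := h'.ev b hb (hs (by simp))
      have b3 := u1 b
      have b4 := card_le (W := W ∪ W') hs (by simp [hx, hy, h.off, h'.off, r3, r4])
      have b6 : (b ∩ (W ∩ W')).card ≤ (b ∩ W).card :=
        card_le_card (inter_subset_inter_left inter_subset_left)
      have b7 : (b ∩ (W ∩ W')).card ≤ (b ∩ W').card :=
        card_le_card (inter_subset_inter_left inter_subset_right)
      have b8 : (b ∩ W).card ≤ (b ∩ (W ∪ W')).card :=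
        card_le_card (inter_subset_inter_left subset_union_left)
      have b9 : (b ∩ W').card ≤ (b ∩ (W ∪ W')).card :=
        card_le_card (inter_subset_inter_left subset_union_right)
      rw [H.five b hb, c3 r r1 r2] at b4
      omega
    · exact dvd_zero _
  rw [a1, d5] at a2
  omega

theorem St.final (H : St B) (h : Ev B x W) (h' : Ev B y W) (hn : x ≠ y) : False := by
  have c2 := card_pair hn
  have dx : Disjoint {x} W := by simp [h.off]
  have dy : Disjoint {y} W := by simp [h'.off]
  have dz : Disjoint {x, y} W := by simp [h.off, h'.off]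
  have d0 : Disjoint ∅ W := disjoint_empty_left _
  have key : 4 * T B ∅ W 1 + 4 * T B ∅ W 3 + 4 * T B {x} W 0 + 5 * T B {x} W 3 +
      4 * T B {y} W 0 + 5 * T B {y} W 3 + 4 * T B {x, y} W 2 ≤
      4 * T B ∅ W 0 + 4 * T B ∅ W 2 + 4 * T B ∅ W 4 + 4 * T B {x} W 2 + 4 * T B {y} W 2 +
      4 * T B {x, y} W 0 := by
    simp only [T, mul_sum, ← sum_add_distrib]
    refine sum_le_sum fun b hb => ?_
    have b1 := h.ev b hb
    have b2 := h'.ev b hb
    have b3 := card_le (b := b) (empty_subset _) d0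
    have b4 := fun e => card_le (b := b) e dz
    rw [H.five b hb] at b3 b4
    simp only [empty_subset, if_true, singleton_subset_iff, insert_subset_iff, c2] at b4 ⊢
    revert b1 b2 b4
    generalize (b ∩ W).card = i at b3 ⊢
    have b5 : i ≤ 5 := by omega
    by_cases e1 : x ∈ b <;> by_cases e2 : y ∈ b <;> simp only [e1, e2] <;>
      interval_cases i <;> decide
  rw [T_eq 0 d0 H.l0, T_eq 1 d0 H.l1, T_eq 2 d0 H.l2, T_eq 3 d0 H.l3, T_eq 4 d0 H.l4,
    T_eq 0 dx H.l1, T_eq 2 dx H.l3, T_eq 3 dx H.l4, T_eq 0 dy H.l1, T_eq 2 dy H.l3,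
    T_eq 3 dy H.l4, T_eq 0 dz fun Q hQ => H.l2 Q (by omega),
    T_eq 2 dz fun Q hQ => H.l4 Q (by omega), h.ten] at key
  revert key
  decide

theorem St.main (H : St B) (h : Ev B x A) (h' : Ev B y W) : x = y := by
  by_contra hn
  obtain ⟨U, u1, u2⟩ := H.avoid h y
  obtain ⟨U', v1, v2⟩ := H.avoid h' x
  obtain rfl : U = U' := (H.same u1 v1 u2 v2 hn).antisymm (H.same v1 u1 v2 u2 (Ne.symm hn))
  exact H.final u1 v1 hn

end Pool.Agent.Lib.MP_672b2e_co
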